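import Pool.Agent.H54.FL.Smd

set_option autoImplicit false

namespace H54.FL

open H5.FL

variable {N : ℕ}

theorem phi_contDiffOn (hPTC : S_PTC) (hPHD : S_PHD) {M q : ℝ} (hM : 2 ≤ M) (hq : q < 1) :
    ContDiffOn ℝ 2 (phi M q) (Set.Ioi 0) := by
  have h0 : ContDiffOn ℝ 1 (phi1 M q) (Set.Ioi 0) := by
    have h := (contDiffOn_succ_iff_deriv_of_isOpen (𝕜 := ℝ) (n := 0) (f := phi1 M q)
      isOpen_Ioi (s := Set.Ioi (0 : ℝ))).2 ⟨fun x hx =>
        ((hPHD M q hM hq x hx).2.differentiableAt).differentiableWithinAt, by simp, ?_⟩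
    · simpa using h
    · rw [contDiffOn_zero]
      have : ContinuousOn (fun x => psiT M q x / x ^ 2) (Set.Ioi 0) := by
        refine ContinuousOn.div ((hPTC M q hM hq).1.continuousOn) (by fun_prop) ?_
        intro x hx
        have : (0 : ℝ) < x := hx
        positivity
      refine this.congr (fun x hx => ?_)
      exact (hPHD M q hM hq x hx).2.deriv
  have h := (contDiffOn_succ_iff_deriv_of_isOpen (𝕜 := ℝ) (n := 1) (f := phi M q)
      isOpen_Ioi (s := Set.Ioi (0 : ℝ))).2 ⟨fun x hx =>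
        ((hPHD M q hM hq x hx).1.differentiableAt).differentiableWithinAt, by simp, ?_⟩
  · have e : (1 : WithTop ℕ∞) + 1 = 2 := by norm_num
    rw [e] at h
    exact h
  · refine h0.congr (fun x hx => ?_)
    exact (hPHD M q hM hq x hx).1.deriv

theorem t_GC2 (hPTC : S_PTC) (hPHD : S_PHD) (hSMD : S_SMD) : S_GC2 := by
  intro N hN q hq
  obtain ⟨hpos, hcd, -⟩ := hSMD N hN
  have hM : (2 : ℝ) ≤ N := by exact_mod_cast hN
  refine ContDiff.sum (fun i _ => ?_)
  rw [contDiff_iff_contDiffAt]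
  intro ξ
  have h1 : ContDiffAt ℝ 2 (phi (N : ℝ) q) (sm ξ i) :=
    (phi_contDiffOn hPTC hPHD hM hq).contDiffAt (Ioi_mem_nhds ((hpos ξ).1 i).1)
  exact h1.comp ξ (hcd i).contDiffAt

end H54.FL
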