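import Pool.Agent.H54.FL.Smd

set_option autoImplicit false

namespace H54.FL

open H5.FL

variable {N : ℕ}

theorem t_GDR (hPHD : S_PHD) (hSMD : S_SMD) : S_GDR := by
  intro N hN q hq ξ j s
  obtain ⟨hpos, -, hder⟩ := hSMD N hN
  have hM : (2 : ℝ) ≤ N := by exact_mod_cast hN
  have hp : ∀ i, 0 < sm (Function.update ξ j s) i := fun i => ((hpos _).1 i).1
  have hd : ∀ i, HasDerivAt (fun s => sm (Function.update ξ j s) i)
      (sm (Function.update ξ j s) i * ((if i = j then 1 else 0) - sm (Function.update ξ j s) j))
      s := fun i => hder ξ i j s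
  have hphi : ∀ i, HasDerivAt (fun s => phi (N : ℝ) q (sm (Function.update ξ j s) i))
      (phi1 (N : ℝ) q (sm (Function.update ξ j s) i) *
        (sm (Function.update ξ j s) i *
          ((if i = j then 1 else 0) - sm (Function.update ξ j s) j))) s :=
    fun i => by
      have h := ((hPHD N q hM hq _ (hp i)).1).comp s (hd i)
      exact h
  have hphi1 : ∀ i, HasDerivAt (fun s => phi1 (N : ℝ) q (sm (Function.update ξ j s) i))
      (psiT (N : ℝ) q (sm (Function.update ξ j s) i) / sm (Function.update ξ j s) i ^ 2 *
        (sm (Function.update ξ j s) i *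
          ((if i = j then 1 else 0) - sm (Function.update ξ j s) j))) s :=
    fun i => by
      have h := ((hPHD N q hM hq _ (hp i)).2).comp s (hd i)
      exact h
  have hS : HasDerivAt (fun s => ∑ i, sm (Function.update ξ j s) i *
        phi1 (N : ℝ) q (sm (Function.update ξ j s) i))
      (∑ i, (sm (Function.update ξ j s) i *
          ((if i = j then 1 else 0) - sm (Function.update ξ j s) j) *
          phi1 (N : ℝ) q (sm (Function.update ξ j s) i) +
        sm (Function.update ξ j s) i *
          (psiT (N : ℝ) q (sm (Function.update ξ j s) i) / sm (Function.update ξ j s) i ^ 2 *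
        (sm (Function.update ξ j s) i *
          ((if i = j then 1 else 0) - sm (Function.update ξ j s) j))))) s :=
    HasDerivAt.fun_sum (fun i _ => (hd i).mul (hphi1 i))
  have hG : HasDerivAt (fun s => GG N q (Function.update ξ j s))
      (∑ i, phi1 (N : ℝ) q (sm (Function.update ξ j s) i) *
        (sm (Function.update ξ j s) i *
          ((if i = j then 1 else 0) - sm (Function.update ξ j s) j))) s :=
    HasDerivAt.fun_sum (fun i _ => hphi i)
  have hG1 : HasDerivAt (fun s => G1 N q (Function.update ξ j s) j) _ s :=
    (hd j).mul ((hphi1 j).sub hS)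
  constructor
  · refine hG.congr_deriv ?_
    rw [G1, mul_sub, Finset.mul_sum]
    have : ∀ i, phi1 (N : ℝ) q (sm (Function.update ξ j s) i) *
        (sm (Function.update ξ j s) i *
          ((if i = j then 1 else 0) - sm (Function.update ξ j s) j)) =
        (if i = j then phi1 (N : ℝ) q (sm (Function.update ξ j s) i) *
          sm (Function.update ξ j s) i else 0) -
        sm (Function.update ξ j s) j * (sm (Function.update ξ j s) i *
          phi1 (N : ℝ) q (sm (Function.update ξ j s) i)) := by
      intro i
      by_cases h : i = j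
      · simp only [h, if_true]; ring
      · simp only [h, if_false]; ring
    rw [Finset.sum_congr rfl (fun i _ => this i), Finset.sum_sub_distrib,
      Finset.sum_ite_eq' Finset.univ j]
    simp only [Finset.mem_univ, if_true]
    ring
  · refine hG1.congr_deriv ?_
    set p : Fin N → ℝ := fun i => sm (Function.update ξ j s) i with hpdef
    have hpi : ∀ i, sm (Function.update ξ j s) i = p i := fun i => rfl
    have hp' : ∀ i, p i ≠ 0 := fun i => (hp i).ne'
    simp only [hpi]
    have e1 : ∀ i, (p i * ((if i = j then 1 else 0) - p j) * phi1 (N : ℝ) q (p i) +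
        p i * (psiT (N : ℝ) q (p i) / p i ^ 2 * (p i * ((if i = j then 1 else 0) - p j)))) =
        (if i = j then p i * phi1 (N : ℝ) q (p i) + psiT (N : ℝ) q (p i) else 0) -
        p j * (p i * phi1 (N : ℝ) q (p i)) - p j * psiT (N : ℝ) q (p i) := by
      intro i
      have hi := hp' i
      by_cases h : i = j
      · simp only [h, if_true]
        have hj := hp' j
        field_simp
        ring
      · simp only [h, if_false]
        field_simp
        ring
    have e2 : ∑ i, psiT (N : ℝ) q (p i) =
        psiT (N : ℝ) q (p j) + ∑ i ∈ Finset.univ.erase j, psiT (N : ℝ) q (p i) :=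
      (Finset.add_sum_erase _ _ (Finset.mem_univ j)).symm
    rw [Finset.sum_congr rfl (fun i _ => e1 i), Finset.sum_sub_distrib, Finset.sum_sub_distrib,
      Finset.sum_ite_eq' Finset.univ j, ← Finset.mul_sum, ← Finset.mul_sum, e2]
    simp only [Finset.mem_univ, if_true, BB, G1, hpi]
    have hj := hp' j
    field_simp
    ring

end H54.FL
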