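import Pool.Agent.H5.FL.Stm

set_option autoImplicit false

namespace H54.FL

open H5.FL

variable {N : ℕ}

theorem upd_deriv (ξ : Fin N → ℝ) (j k : Fin N) (s : ℝ) :
    HasDerivAt (fun s => Function.update ξ j s k) (if k = j then 1 else 0) s := by
  by_cases h : k = j
  · subst h
    simpa using hasDerivAt_id' s
  · have : (fun s : ℝ => Function.update ξ j s k) = fun _ => ξ k := by
      funext s; simp [Function.update_of_ne h]
    rw [this]
    simp only [h, if_false]
    exact hasDerivAt_const s (ξ k)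

theorem sum_exp_pos (hN : 2 ≤ N) (ξ : Fin N → ℝ) : 0 < ∑ k, Real.exp (ξ k) :=
  Finset.sum_pos (fun k _ => Real.exp_pos _) ⟨⟨0, by omega⟩, Finset.mem_univ _⟩

theorem t_SMD : S_SMD := by
  intro N hN
  refine ⟨fun ξ => ⟨fun i => ⟨?_, ?_⟩, ?_⟩, ?_, ?_⟩
  · exact div_pos (Real.exp_pos _) (sum_exp_pos hN ξ)
  · rw [sm, div_lt_one (sum_exp_pos hN ξ)]
    obtain ⟨j, hj⟩ : ∃ j : Fin N, j ≠ i := by
      by_cases h : i = ⟨0, by omega⟩
      · exact ⟨⟨1, by omega⟩, by rw [h]; intro e; simp [Fin.ext_iff] at e⟩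
      · exact ⟨⟨0, by omega⟩, fun e => h e.symm⟩
    exact Finset.single_lt_sum hj (Finset.mem_univ i) (Finset.mem_univ j) (Real.exp_pos _)
      (fun k _ _ => (Real.exp_pos _).le)
  · simp only [sm]
    rw [← Finset.sum_div, div_self (sum_exp_pos hN ξ).ne']
  · intro i
    refine ContDiff.div ?_ ?_ (fun ξ => (sum_exp_pos hN ξ).ne')
    · exact Real.contDiff_exp.comp (contDiff_apply ℝ ℝ i)
    · exact ContDiff.sum (fun k _ => Real.contDiff_exp.comp (contDiff_apply ℝ ℝ k))
  · intro ξ i j s
    have h1 : ∀ k, HasDerivAt (fun s => Real.exp (Function.update ξ j s k))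
        (Real.exp (Function.update ξ j s k) * (if k = j then 1 else 0)) s :=
      fun k => (upd_deriv ξ j k s).exp
    have h2 : HasDerivAt (fun s => ∑ k, Real.exp (Function.update ξ j s k))
        (∑ k, Real.exp (Function.update ξ j s k) * (if k = j then 1 else 0)) s :=
      HasDerivAt.fun_sum (fun k _ => h1 k)
    have h3 := (h1 i).div h2 (sum_exp_pos hN _).ne'
    have hpos := sum_exp_pos hN (Function.update ξ j s)
    have e1 : (∑ k, Real.exp (Function.update ξ j s k) * (if k = j then (1 : ℝ) else 0)) =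
        Real.exp (Function.update ξ j s j) := by simp
    rw [e1] at h3
    refine h3.congr_deriv ?_
    simp only [sm]
    field_simp

end H54.FL
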