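import Pool.Agent.H54.FL.Gdr

set_option autoImplicit false

namespace H54.FL

open H5.FL

variable {N : ℕ}

theorem lin_upd1 (μ : ℝ) (x τ : Fin N → ℝ) (j : Fin N) (s : ℝ) :
    lin μ (Function.update x j s, τ) =
      Function.update (lin μ (x, τ)) j (μ * s - (1 / 2) * μ ^ 2 * τ j) := by
  funext i
  by_cases h : i = j
  · subst h; simp [lin]
  · simp [lin, Function.update_of_ne h]

theorem lin_upd2 (μ : ℝ) (x τ : Fin N → ℝ) (j : Fin N) (s : ℝ) :
    lin μ (x, Function.update τ j s) =
      Function.update (lin μ (x, τ)) j (μ * x j - (1 / 2) * μ ^ 2 * s) := by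
  funext i
  by_cases h : i = j
  · subst h; simp [lin]
  · simp [lin, Function.update_of_ne h]

theorem lin_self (μ : ℝ) (x τ : Fin N → ℝ) (j : Fin N) :
    Function.update (lin μ (x, τ)) j (μ * x j - (1 / 2) * μ ^ 2 * τ j) = lin μ (x, τ) := by
  funext i
  by_cases h : i = j
  · subst h; simp [lin]
  · simp [Function.update_of_ne h]

theorem ff_dx (hG : S_GDR) (hN : 2 ≤ N) {q : ℝ} (hq : q < 1) (μ δ : ℝ) (x τ : Fin N → ℝ)
    (j : Fin N) (s : ℝ) :
    HasDerivAt (fun s => ff N q μ δ (Function.update x j s, τ))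
      (-δ * μ * (G1 N q (lin μ (Function.update x j s, τ)) j *
        ff N q μ δ (Function.update x j s, τ))) s := by
  have h1 := (hG N hN q hq (lin μ (x, τ)) j (μ * s - (1 / 2) * μ ^ 2 * τ j)).1
  have h2 : HasDerivAt (fun s : ℝ => μ * s - (1 / 2) * μ ^ 2 * τ j) μ s := by
    simpa using ((hasDerivAt_id' s).const_mul μ).sub_const ((1 / 2) * μ ^ 2 * τ j)
  have h3 := h1.comp s h2
  have h4 := (h3.const_mul (-δ)).exp
  refine (h4.congr_deriv ?_).congr_of_eventuallyEq ?_
  · simp only [ff, Function.comp, ← lin_upd1]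
    ring
  · refine Filter.Eventually.of_forall (fun s => ?_)
    simp only [ff, Function.comp, ← lin_upd1]

theorem ff_dxx (hG : S_GDR) (hN : 2 ≤ N) {q : ℝ} (hq : q < 1) (μ δ : ℝ) (x τ : Fin N → ℝ)
    (j : Fin N) (s : ℝ) :
    HasDerivAt (fun s => -δ * μ * (G1 N q (lin μ (Function.update x j s, τ)) j *
        ff N q μ δ (Function.update x j s, τ)))
      (μ ^ 2 * ff N q μ δ (Function.update x j s, τ) *
        (δ ^ 2 * G1 N q (lin μ (Function.update x j s, τ)) j ^ 2
          - δ * (BB N q (lin μ (Function.update x j s, τ)) j +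
            (1 - 2 * sm (lin μ (Function.update x j s, τ)) j) *
              G1 N q (lin μ (Function.update x j s, τ)) j))) s := by
  have h1 := (hG N hN q hq (lin μ (x, τ)) j (μ * s - (1 / 2) * μ ^ 2 * τ j)).2
  have h2 : HasDerivAt (fun s : ℝ => μ * s - (1 / 2) * μ ^ 2 * τ j) μ s := by
    simpa using ((hasDerivAt_id' s).const_mul μ).sub_const ((1 / 2) * μ ^ 2 * τ j)
  have h3 := h1.comp s h2
  have h5 := (h3.mul (ff_dx hG hN hq μ δ x τ j s)).const_mul (-δ * μ)
  refine (h5.congr_deriv ?_).congr_of_eventuallyEq ?_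
  · simp only [Function.comp, ← lin_upd1]
    ring
  · refine Filter.Eventually.of_forall (fun s => ?_)
    simp only [Function.comp, ← lin_upd1, Pi.mul_apply]

theorem ff_dtau (hG : S_GDR) (hN : 2 ≤ N) {q : ℝ} (hq : q < 1) (μ δ : ℝ) (x τ : Fin N → ℝ)
    (j : Fin N) (s : ℝ) :
    HasDerivAt (fun s => ff N q μ δ (x, Function.update τ j s))
      ((1 / 2) * μ ^ 2 * δ * (G1 N q (lin μ (x, Function.update τ j s)) j *
        ff N q μ δ (x, Function.update τ j s))) s := by
  have h1 := (hG N hN q hq (lin μ (x, τ)) j (μ * x j - (1 / 2) * μ ^ 2 * s)).1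
  have h2 : HasDerivAt (fun s : ℝ => μ * x j - (1 / 2) * μ ^ 2 * s) (-((1 / 2) * μ ^ 2)) s := by
    simpa using ((hasDerivAt_id' s).const_mul ((1 / 2) * μ ^ 2)).const_sub (μ * x j)
  have h3 := h1.comp s h2
  have h4 := (h3.const_mul (-δ)).exp
  refine (h4.congr_deriv ?_).congr_of_eventuallyEq ?_
  · simp only [ff, Function.comp, ← lin_upd2]
    ring
  · refine Filter.Eventually.of_forall (fun s => ?_)
    simp only [ff, Function.comp, ← lin_upd2]

theorem ff_deriv1 (hG : S_GDR) (hN : 2 ≤ N) {q : ℝ} (hq : q < 1) (μ δ : ℝ) (x τ : Fin N → ℝ)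
    (j : Fin N) :
    deriv (fun s => ff N q μ δ (Function.update x j s, τ)) (x j) =
      -δ * μ * (G1 N q (lin μ (x, τ)) j * ff N q μ δ (x, τ)) := by
  rw [(ff_dx hG hN hq μ δ x τ j (x j)).deriv, Function.update_eq_self]

theorem ff_deriv2 (hG : S_GDR) (hN : 2 ≤ N) {q : ℝ} (hq : q < 1) (μ δ : ℝ) (x τ : Fin N → ℝ)
    (j : Fin N) :
    iteratedDeriv 2 (fun s => ff N q μ δ (Function.update x j s, τ)) (x j) =
      μ ^ 2 * ff N q μ δ (x, τ) * (δ ^ 2 * G1 N q (lin μ (x, τ)) j ^ 2
          - δ * (BB N q (lin μ (x, τ)) j + (1 - 2 * sm (lin μ (x, τ)) j) *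
              G1 N q (lin μ (x, τ)) j)) := by
  rw [show (2 : ℕ) = 1 + 1 from rfl, iteratedDeriv_succ, iteratedDeriv_one]
  have e : deriv (fun s => ff N q μ δ (Function.update x j s, τ)) =
      fun s => -δ * μ * (G1 N q (lin μ (Function.update x j s, τ)) j *
        ff N q μ δ (Function.update x j s, τ)) :=
    funext (fun s => (ff_dx hG hN hq μ δ x τ j s).deriv)
  rw [e, (ff_dxx hG hN hq μ δ x τ j (x j)).deriv, Function.update_eq_self]

theorem ff_deriv3 (hG : S_GDR) (hN : 2 ≤ N) {q : ℝ} (hq : q < 1) (μ δ : ℝ) (x τ : Fin N → ℝ)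
    (j : Fin N) :
    deriv (fun s => ff N q μ δ (x, Function.update τ j s)) (τ j) =
      (1 / 2) * μ ^ 2 * δ * (G1 N q (lin μ (x, τ)) j * ff N q μ δ (x, τ)) := by
  rw [(ff_dtau hG hN hq μ δ x τ j (τ j)).deriv, Function.update_eq_self]

theorem t_TST (hGC2 : S_GC2) (hG : S_GDR) (hGBD : S_GBD) (hSMD : S_SMD) : S_TST := by
  intro N hN q hNq hq μ δ hδ
  obtain ⟨hpos, -, -⟩ := hSMD N hN
  obtain ⟨K, hK, hb⟩ := hGBD N hN q hNq hq
  constructor
  · constructor
    · have hlin : ContDiff ℝ 2 (lin (N := N) μ) := by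
        rw [contDiff_pi]
        intro i
        unfold lin
        fun_prop
      exact Real.contDiff_exp.comp (contDiff_const.mul ((hGC2 N hN q hq).comp hlin))
    · refine ⟨Real.exp (δ * K) * (1 + δ * |μ| * K + μ ^ 2 * (δ ^ 2 * K ^ 2 + 2 * δ * K)), ?_⟩
      intro x τ
      obtain ⟨hlow, hbb⟩ := hb (lin μ (x, τ))
      have hf0 : 0 < ff N q μ δ (x, τ) := Real.exp_pos _
      have hf1 : ff N q μ δ (x, τ) ≤ Real.exp (δ * K) := by
        apply Real.exp_le_exp.2
        nlinarith
      set F := ff N q μ δ (x, τ) with hF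
      set Z := Real.exp (δ * K) with hZ
      have hZ0 : 0 < Z := Real.exp_pos _
      have hμ := abs_nonneg μ
      have hμ2 : |μ| ^ 2 = μ ^ 2 := sq_abs μ
      refine ⟨?_, fun j => ?_⟩
      · rw [abs_of_pos hf0]
        calc F ≤ Z * 1 := by linarith
          _ ≤ _ := by
            apply mul_le_mul_of_nonneg_left _ hZ0.le
            have : 0 ≤ δ * |μ| * K := by positivity
            have : 0 ≤ μ ^ 2 * (δ ^ 2 * K ^ 2 + 2 * δ * K) := by positivity
            linarith
      · obtain ⟨hG1, hBB⟩ := hbb j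
        obtain ⟨hp0, hp1⟩ := (hpos (lin μ (x, τ))).1 j
        rw [ff_deriv1 hG hN hq, ff_deriv2 hG hN hq, ff_deriv3 hG hN hq]
        set g := G1 N q (lin μ (x, τ)) j
        set b := BB N q (lin μ (x, τ)) j
        set p := sm (lin μ (x, τ)) j
        have hgF : |g * F| ≤ K * Z := by
          rw [abs_mul, abs_of_pos hf0]
          exact mul_le_mul hG1 hf1 hf0.le hK.le
        have hA : 0 ≤ δ * |μ| * K := by positivity
        have hB : 0 ≤ μ ^ 2 * (δ ^ 2 * K ^ 2 + 2 * δ * K) := by positivity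
        refine ⟨?_, ?_, ?_⟩
        · rw [abs_mul, abs_mul, abs_neg, abs_of_pos hδ]
          calc δ * |μ| * |g * F| ≤ δ * |μ| * (K * Z) := by
                apply mul_le_mul_of_nonneg_left hgF (by positivity)
            _ = Z * (δ * |μ| * K) := by ring
            _ ≤ _ := by
              apply mul_le_mul_of_nonneg_left _ hZ0.le
              linarith
        · rw [abs_mul, abs_mul, abs_of_nonneg (sq_nonneg μ), abs_of_pos hf0]
          have h1 : |δ ^ 2 * g ^ 2 - δ * (b + (1 - 2 * p) * g)| ≤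
              δ ^ 2 * K ^ 2 + 2 * δ * K := by
            have hg2 : g ^ 2 ≤ K ^ 2 := sq_le_sq' (by linarith [(abs_le.1 hG1).1]) (abs_le.1 hG1).2
            have h2 : |(1 - 2 * p) * g| ≤ K := by
              rw [abs_mul]
              have : |1 - 2 * p| ≤ 1 := by rw [abs_le]; constructor <;> linarith
              calc |1 - 2 * p| * |g| ≤ 1 * K := mul_le_mul this hG1 (abs_nonneg _) zero_le_one
                _ = K := one_mul K
            have h3 : |b + (1 - 2 * p) * g| ≤ 2 * K := by
              calc _ ≤ |b| + |(1 - 2 * p) * g| := abs_add_le _ _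
                _ ≤ 2 * K := by linarith
            calc _ ≤ |δ ^ 2 * g ^ 2| + |δ * (b + (1 - 2 * p) * g)| := abs_sub _ _
              _ = δ ^ 2 * g ^ 2 + δ * |b + (1 - 2 * p) * g| := by
                rw [abs_mul δ, abs_of_pos hδ, abs_of_nonneg (by positivity)]
              _ ≤ δ ^ 2 * K ^ 2 + δ * (2 * K) := by
                apply add_le_add
                · exact mul_le_mul_of_nonneg_left hg2 (by positivity)
                · exact mul_le_mul_of_nonneg_left h3 hδ.le
              _ = _ := by ring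
          calc μ ^ 2 * F * |δ ^ 2 * g ^ 2 - δ * (b + (1 - 2 * p) * g)| ≤
                μ ^ 2 * Z * (δ ^ 2 * K ^ 2 + 2 * δ * K) := by
                apply mul_le_mul (mul_le_mul_of_nonneg_left hf1 (sq_nonneg μ)) h1 (abs_nonneg _)
                positivity
            _ = Z * (μ ^ 2 * (δ ^ 2 * K ^ 2 + 2 * δ * K)) := by ring
            _ ≤ _ := by
              apply mul_le_mul_of_nonneg_left _ hZ0.le
              linarith
        · rw [abs_mul, abs_of_nonneg (by positivity : (0 : ℝ) ≤ 1 / 2 * μ ^ 2 * δ)]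
          calc 1 / 2 * μ ^ 2 * δ * |g * F| ≤ 1 / 2 * μ ^ 2 * δ * (K * Z) := by
                apply mul_le_mul_of_nonneg_left hgF (by positivity)
            _ = Z * (μ ^ 2 * (1 / 2 * δ * K)) := by ring
            _ ≤ Z * (μ ^ 2 * (δ ^ 2 * K ^ 2 + 2 * δ * K)) := by
              apply mul_le_mul_of_nonneg_left _ hZ0.le
              apply mul_le_mul_of_nonneg_left _ (sq_nonneg μ)
              have : 0 ≤ δ ^ 2 * K ^ 2 := by positivity
              have : 0 ≤ δ * K := by positivity
              linarith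
            _ ≤ _ := by
              apply mul_le_mul_of_nonneg_left _ hZ0.le
              linarith
  · intro x τ j hit hdec
    rw [gen, ff_deriv1 hG hN hq, ff_deriv2 hG hN hq, ff_deriv3 hG hN hq]
    by_cases h : hit
    · simp only [h, if_true]; ring
    · simp only [h, if_false]; ring

end H54.FL
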